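import Mathlib
import Pool.Agent.Lib.MP_544bd1_al.Defs
import Pool.Agent.Lib.MP_544bd1_al.Criterion2

/-!
# A criterion for `n ∈ 𝓛` in terms of one free Burnside group of finite rank

If in the free Burnside group `B_{k+1,n}` the normal closure of a free generator is soluble of
derived length at most `k`, then every group satisfying `x ^ n = 1` is locally finite.
-/

namespace Pool.Agent.Results.MP_544bd1_al.DerivedLength

open Pool.Agent.Lib.MP_544bd1_al

/-- **Criterion.** -/
theorem result (k n : ℕ) (hn : 0 < n)
    (h : derivedSeries (Subgroup.normalClosure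
      {(QuotientGroup.mk (FreeGroup.of 0) : FreeBurnside (k + 1) n)} :
        Subgroup (FreeBurnside (k + 1) n)) k = ⊥) :
    n ∈ LocFinExponents :=
  criterion k n hn h

end Pool.Agent.Results.MP_544bd1_al.DerivedLength
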